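import Pool.Agent.HEC.Stmts

set_option autoImplicit false

/-!
# Row UNI of squad HEC (MP_3faef8_co): all graphs
-/

namespace Pool.Agent.HEC.H81

open Finset Pool.Agent.HEC

variable {V : Type}

/-- Counting on a subtype. -/
lemma cnt_bij {α β : Type} [Fintype α] [Fintype β] (p : α → Prop) (q : β → Prop) (f : α → β)
    (hf : ∀ a b, f a = f b → a = b) (h1 : ∀ a, p a ↔ q (f a)) (h2 : ∀ b, q b → ∃ a, f a = b) :
    cnt p = cnt q := by
  classical
  unfold cnt
  refine Finset.card_bij (fun a _ => f a) ?_ ?_ ?_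
  · intro a ha
    rw [Finset.mem_filter] at ha ⊢
    exact ⟨Finset.mem_univ _, (h1 a).1 ha.2⟩
  · intro a _ b _ h
    exact hf a b h
  · intro b hb
    rw [Finset.mem_filter] at hb
    obtain ⟨a, rfl⟩ := h2 b hb.2
    exact ⟨a, Finset.mem_filter.2 ⟨Finset.mem_univ _, (h1 a).2 hb.2⟩, rfl⟩

lemma cnt_le_add {α : Type} [Fintype α] (p q r : α → Prop) (h : ∀ a, p a → q a ∨ r a) :
    cnt p ≤ cnt q + cnt r := by
  classical
  unfold cnt
  refine (Finset.card_le_card (t := univ.filter q ∪ univ.filter r) ?_).trans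
    (Finset.card_union_le _ _)
  intro a ha
  rw [Finset.mem_filter] at ha
  rw [Finset.mem_union, Finset.mem_filter, Finset.mem_filter]
  rcases h a ha.2 with h | h
  · exact Or.inl ⟨Finset.mem_univ _, h⟩
  · exact Or.inr ⟨Finset.mem_univ _, h⟩

lemma add_le_cnt {α : Type} [Fintype α] (p q r : α → Prop) (hq : ∀ a, q a → p a)
    (hr : ∀ a, r a → p a) (hd : ∀ a, q a → r a → False) :
    cnt q + cnt r ≤ cnt p := by
  classical
  unfold cnt
  rw [← Finset.card_union_of_disjoint]
  · apply Finset.card_le_card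
    intro a ha
    rw [Finset.mem_union, Finset.mem_filter, Finset.mem_filter] at ha
    rw [Finset.mem_filter]
    rcases ha with h | h
    · exact ⟨Finset.mem_univ _, hq a h.2⟩
    · exact ⟨Finset.mem_univ _, hr a h.2⟩
  · rw [Finset.disjoint_left]
    intro a ha hb
    exact hd a (Finset.mem_filter.1 ha).2 (Finset.mem_filter.1 hb).2

lemma cnt_eq_zero {α : Type} [Fintype α] (p : α → Prop) (h : cnt p = 0) (a : α) : ¬ p a := by
  classical
  intro ha
  unfold cnt at h
  rw [Finset.card_eq_zero] at h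
  have : a ∈ univ.filter p := Finset.mem_filter.2 ⟨Finset.mem_univ _, ha⟩
  rw [h] at this
  simp at this

/-- No edges between `U` and its complement. -/
def Clo (G : SimpleGraph V) (U : Finset V) : Prop := ∀ u v, G.Adj u v → u ∈ U → v ∈ U

lemma clo_of_cut [Fintype V] (G : SimpleGraph V) (U : Finset V) (h : cut G U = 0) : Clo G U := by
  intro u v huv hu
  by_contra hv
  exact cnt_eq_zero _ h (u, v) ⟨hu, hv, huv⟩

/-- The claim for the edges inside `U`. -/
def PU [Fintype V] (G : SimpleGraph V) (U : Finset V) : Prop :=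
  ∃ x : V → V → ℤ, Lab (res G U) x ∧
    (∀ u v, (res G U).Adj u v → 2 * (dg G u : ℤ) + bd x u ≠ 2 * (dg G v : ℤ) + bd x v) ∧
    ∑ v, bd x v = 0 ∧ 100 * sz x ≤ 63 * e2 (res G U)

/-- Merging two parts. -/
lemma merge [Fintype V] [DecidableEq V] (G : SimpleGraph V) (U W : Finset V) (hWU : W ⊆ U)
    (hW : Clo G W) (h1 : PU G W) (h2 : PU G (U \ W)) : PU G U := by
  obtain ⟨x, hx, hxp, hxt, hxs⟩ := h1
  obtain ⟨y, hy, hyp, hyt, hys⟩ := h2
  have hx0 : ∀ u v, u ∉ W → x u v = 0 := fun u v hu => hx.supp u v fun h => hu h.2.1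
  have hy0 : ∀ u v, u ∈ W → y u v = 0 := fun u v hu => hy.supp u v fun h =>
    (Finset.mem_sdiff.1 h.2.1).2 hu
  have hbx : ∀ u, u ∉ W → bd x u = 0 := fun u hu => Finset.sum_eq_zero fun v _ => hx0 u v hu
  have hby : ∀ u, u ∈ W → bd y u = 0 := fun u hu => Finset.sum_eq_zero fun v _ => hy0 u v hu
  have hbd : ∀ u, bd (fun u v => x u v + y u v) u = bd x u + bd y u := fun u =>
    Finset.sum_add_distrib
  refine ⟨fun u v => x u v + y u v, ⟨?_, ?_, ?_⟩, ?_, ?_, ?_⟩
  · intro u v
    rw [hx.symm, hy.symm]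
  · intro u v huv
    rw [hx.supp u v, hy.supp u v, add_zero]
    · intro h
      exact huv ⟨h.1, (Finset.mem_sdiff.1 h.2.1).1, (Finset.mem_sdiff.1 h.2.2).1⟩
    · intro h
      exact huv ⟨h.1, hWU h.2.1, hWU h.2.2⟩
  · intro u v
    by_cases hu : u ∈ W
    · rw [hy0 u v hu, add_zero]
      exact hx.rng u v
    · rw [hx0 u v hu, zero_add]
      exact hy.rng u v
  · intro u v huv
    rw [hbd, hbd]
    by_cases hu : u ∈ W
    · have hv : v ∈ W := hW u v huv.1 hu
      rw [hby u hu, hby v hv, add_zero, add_zero]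
      exact hxp u v ⟨huv.1, hu, hv⟩
    · have hv : v ∉ W := fun hv => hu (hW v u huv.1.symm hv)
      rw [hbx u hu, hbx v hv, zero_add, zero_add]
      exact hyp u v ⟨huv.1, Finset.mem_sdiff.2 ⟨huv.2.1, hu⟩, Finset.mem_sdiff.2 ⟨huv.2.2, hv⟩⟩
  · simp only [hbd]
    rw [Finset.sum_add_distrib, hxt, hyt, add_zero]
  · have e1 : sz (fun u v => x u v + y u v) ≤ sz x + sz y := by
      apply cnt_le_add
      rintro ⟨u, v⟩ h
      by_contra hcon
      push Not at hcon
      simp only at h hcon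
      rw [hcon.1, hcon.2] at h
      exact h rfl
    have e3 : e2 (res G W) + e2 (res G (U \ W)) ≤ e2 (res G U) := by
      apply add_le_cnt
      · rintro ⟨u, v⟩ h
        exact ⟨h.1, hWU h.2.1, hWU h.2.2⟩
      · rintro ⟨u, v⟩ h
        exact ⟨h.1, (Finset.mem_sdiff.1 h.2.1).1, (Finset.mem_sdiff.1 h.2.2).1⟩
      · rintro ⟨u, v⟩ h h'
        exact (Finset.mem_sdiff.1 h'.2.1).2 h.2.1
    omega

/-- The connected case. -/
lemma conn_case [Fintype V] [DecidableEq V] (hcon : ConStmt) (G : SimpleGraph V) (U : Finset V)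
    (hU : Clo G U) (h : ∀ W : Finset V, W ⊆ U → W.Nonempty → W ≠ U → 20000 ≤ cut G W) : PU G U := by
  classical
  let S : Type := {v : V // v ∈ U}
  let G' : SimpleGraph S := G.comap Subtype.val
  have hadj : ∀ a b : S, G'.Adj a b ↔ G.Adj a.1 b.1 := fun a b => Iff.rfl
  have hdg : ∀ a : S, dg G' a = dg G a.1 := by
    intro a
    unfold dg
    apply cnt_bij _ _ Subtype.val (fun a b h => Subtype.ext h)
    · intro b
      exact Iff.rfl
    · intro b hb
      exact ⟨⟨b, hU _ _ hb a.2⟩, rfl⟩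
  have hcut : ∀ W : Finset S, W.Nonempty → W ≠ univ → 20000 ≤ cut G' W := by
    intro W hW hW'
    have h1 : cut G' W = cut G (W.map (Function.Embedding.subtype _)) := by
      unfold cut
      apply cnt_bij _ _ (fun p : S × S => (p.1.1, p.2.1))
      · intro p q hpq
        rw [Prod.mk.injEq] at hpq
        exact Prod.ext (Subtype.ext hpq.1) (Subtype.ext hpq.2)
      · intro p
        simp only [Finset.mem_map, Function.Embedding.subtype_apply, hadj]
        constructor
        · rintro ⟨ha, hb, hab⟩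
          refine ⟨⟨_, ha, rfl⟩, ?_, hab⟩
          rintro ⟨c, hc, hcb⟩
          have : c = p.2 := Subtype.ext hcb
          exact hb (this ▸ hc)
        · rintro ⟨⟨c, hc, hca⟩, hb, hab⟩
          have : c = p.1 := Subtype.ext hca
          refine ⟨this ▸ hc, fun hb' => hb ⟨_, hb', rfl⟩, hab⟩
      · rintro ⟨u, v⟩ ⟨hu, hv, huv⟩
        obtain ⟨c, hc, rfl⟩ := Finset.mem_map.1 hu
        exact ⟨(c, ⟨v, hU _ _ huv c.2⟩), rfl⟩
    rw [h1]
    apply h
    · intro v hv
      obtain ⟨c, _, rfl⟩ := Finset.mem_map.1 hv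
      exact c.2
    · exact hW.map
    · intro heq
      apply hW'
      ext a
      simp only [Finset.mem_univ, iff_true]
      have : a.1 ∈ W.map (Function.Embedding.subtype _) := by
        rw [heq]
        exact a.2
      obtain ⟨c, hc, hca⟩ := Finset.mem_map.1 this
      have : c = a := Subtype.ext hca
      exact this ▸ hc
  obtain ⟨x', hx'⟩ := hcon S G' hcut
  let x : V → V → ℤ := fun u v => if h : u ∈ U ∧ v ∈ U then x' ⟨u, h.1⟩ ⟨v, h.2⟩ else 0
  have hxS : ∀ a b : S, x a.1 b.1 = x' a b := by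
    intro a b
    simp only [x, a.2, b.2, and_self, dite_true]
    rfl
  have hx0 : ∀ u v, ¬ (u ∈ U ∧ v ∈ U) → x u v = 0 := by
    intro u v h
    simp only [x, h, dite_false]
  have hbdS : ∀ a : S, bd x a.1 = bd x' a := by
    intro a
    unfold bd
    have h1 : ∑ w, x a.1 w = ∑ w ∈ U, x a.1 w := by
      symm
      apply Finset.sum_subset (Finset.subset_univ _)
      intro w _ hw
      exact hx0 _ _ fun h => hw h.2
    rw [h1, ← Finset.sum_coe_sort U (fun w => x a.1 w)]
    exact Finset.sum_congr rfl fun w _ => hxS a w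
  have hbd0 : ∀ u, u ∉ U → bd x u = 0 := fun u hu =>
    Finset.sum_eq_zero fun v _ => hx0 u v fun h => hu h.1
  refine ⟨x, ⟨?_, ?_, ?_⟩, ?_, ?_, ?_⟩
  · intro u v
    by_cases h : u ∈ U ∧ v ∈ U
    · have := hx'.lab.symm ⟨u, h.1⟩ ⟨v, h.2⟩
      rw [← hxS, ← hxS] at this
      exact this
    · rw [hx0 u v h, hx0 v u fun h' => h ⟨h'.2, h'.1⟩]
  · intro u v huv
    by_cases h : u ∈ U ∧ v ∈ U
    · have := hx'.lab.supp ⟨u, h.1⟩ ⟨v, h.2⟩ (fun hadj' => huv ⟨hadj', h.1, h.2⟩)
      rw [← hxS] at this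
      exact this
    · exact hx0 u v h
  · intro u v
    by_cases h : u ∈ U ∧ v ∈ U
    · have := hx'.lab.rng ⟨u, h.1⟩ ⟨v, h.2⟩
      rw [← hxS] at this
      exact this
    · rw [hx0 u v h]
      constructor <;> norm_num
  · rintro u v ⟨huv, hu, hv⟩
    have := hx'.proper ⟨u, hu⟩ ⟨v, hv⟩ huv
    rw [hdg, hdg, ← hbdS, ← hbdS] at this
    exact this
  · have h1 : ∑ v, bd x v = ∑ v ∈ U, bd x v := by
      symm
      apply Finset.sum_subset (Finset.subset_univ _)
      intro w _ hw
      exact hbd0 w hw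
    rw [h1, ← Finset.sum_coe_sort U (fun w => bd x w), ← hx'.tot]
    exact Finset.sum_congr rfl fun w _ => hbdS w
  · have h1 : sz x' = sz x := by
      unfold sz
      apply cnt_bij _ _ (fun p : S × S => (p.1.1, p.2.1))
      · intro p q hpq
        rw [Prod.mk.injEq] at hpq
        exact Prod.ext (Subtype.ext hpq.1) (Subtype.ext hpq.2)
      · intro p
        simp only
        rw [hxS]
      · rintro ⟨u, v⟩ huv
        by_cases h : u ∈ U ∧ v ∈ U
        · exact ⟨(⟨u, h.1⟩, ⟨v, h.2⟩), rfl⟩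
        · exact absurd (hx0 u v h) huv
    have h2 : e2 G' = e2 (res G U) := by
      unfold e2
      apply cnt_bij _ _ (fun p : S × S => (p.1.1, p.2.1))
      · intro p q hpq
        rw [Prod.mk.injEq] at hpq
        exact Prod.ext (Subtype.ext hpq.1) (Subtype.ext hpq.2)
      · intro p
        exact ⟨fun h => ⟨h, p.1.2, p.2.2⟩, fun h => h.1⟩
      · rintro ⟨u, v⟩ huv
        exact ⟨(⟨u, huv.2.1⟩, ⟨v, huv.2.2⟩), rfl⟩
    rw [← h1, ← h2]
    exact hx'.few

/-- The proof of row UNI. -/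
theorem uni (hcon : ConStmt) : UniStmt := by
  classical
  intro V _ G hG
  have key : ∀ n : ℕ, ∀ U : Finset V, U.card = n → Clo G U → PU G U := by
    intro n
    induction n using Nat.strong_induction_on with
    | _ n ih =>
      intro U hUn hU
      by_cases h : ∃ W : Finset V, W ⊆ U ∧ W.Nonempty ∧ W ≠ U ∧ cut G W = 0
      · obtain ⟨W, hWU, hWn, hWne, hW0⟩ := h
        have hW := clo_of_cut G W hW0
        have hss : W ⊂ U := hWU.ssubset_of_ne hWne
        have hc1 : W.card < U.card := Finset.card_lt_card hss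
        have hc2 : (U \ W).card < U.card := by
          apply Finset.card_lt_card
          refine ⟨Finset.sdiff_subset, fun h => ?_⟩
          obtain ⟨w, hw⟩ := hWn
          exact (Finset.mem_sdiff.1 (h (hWU hw))).2 hw
        refine merge G U W hWU hW (ih _ (hUn ▸ hc1) W rfl hW) (ih _ (hUn ▸ hc2) (U \ W) rfl ?_)
        intro u v huv hu
        rw [Finset.mem_sdiff] at hu ⊢
        exact ⟨hU u v huv hu.1, fun hv => hu.2 (hW v u huv.symm hv)⟩
      · push Not at h
        apply conn_case hcon G U hU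
        intro W hWU hWn hWne
        rcases hG W with h0 | h0
        · exact absurd h0 (h W hWU hWn hWne)
        · exact h0
  obtain ⟨x, hx, hxp, hxt, hxs⟩ := key _ univ rfl (fun _ v _ _ => Finset.mem_univ v)
  have hres : ∀ u v, (res G univ).Adj u v ↔ G.Adj u v := fun u v =>
    ⟨fun h => h.1, fun h => ⟨h, Finset.mem_univ _, Finset.mem_univ _⟩⟩
  have hres' : res G univ = G := by
    ext u v
    exact hres u v
  rw [hres'] at hx hxp hxs
  exact ⟨x, ⟨hx, hxp, hxt, hxs⟩⟩

end Pool.Agent.HEC.H81
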